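import Mathlib
import Pool.Agent.Q100.SL.Bas

set_option autoImplicit false

open Finset

namespace Q26.SL

open Q100.SL

variable {p : ℝ} {N N1 : ℕ → Finset ℕ} {n n1 : ℕ} {C c : Finset ℕ} {Ω ι κ : Type} [Fintype Ω]
  [Fintype κ] {W : Bool → Ω → ℝ} {X : ι → Ω → Bool} {o : ι → ℕ} {S : Finset ℕ}

theorem fits_val (hv : Val N n) (hC : C ⊆ range n) (hF : Fits p N n C c W X N1 n1 o S) :
    Val N1 n1 := by
  intro j hj
  by_cases h : j < n
  · rw [hF.ext j h]; exact hv j h
  · refine (hF.nb j (not_lt.1 h) hj).2.trans (union_subset ?_ ?_)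
    · intro i hi
      have := mem_range.1 (hC hi)
      rw [mem_range]; omega
    · intro i hi
      rw [mem_range]; exact (mem_Ico.1 hi).2

/-- the marginal on the observed outputs -/
theorem mg_out (hC : C ⊆ range n) (hc : c ⊆ C)
    (hF : Fits p N n C c W X N1 n1 o S) (J : κ → ι) (t : Bool) (z : Finset ℕ) (hz : z ∩ C = c) :
    mg (law p N1 n1 t) n1 (C ∪ univ.image (fun k => o (J k))) z =
      mg (law p N n t) n C c * wt W X J t (fun k => decide (o (J k) ∈ z)) := by
  have e0 : mg (law p N1 n1 t) n1 (C ∪ univ.image (fun k => o (J k))) z =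
      ∑ z1 ∈ (range n1).powerset with z1 ∩ C = c, (law p N1 n1 t z1 *
        (if ∀ k, decide (o (J k) ∈ z1) = decide (o (J k) ∈ z) then 1 else 0)) := by
    unfold mg
    rw [sum_filter, sum_filter]
    refine sum_congr rfl fun z1 _ => ?_
    have hiff : (z1 ∩ (C ∪ univ.image (fun k => o (J k))) =
        z ∩ (C ∪ univ.image (fun k => o (J k)))) ↔
        (z1 ∩ C = c ∧ ∀ k, decide (o (J k) ∈ z1) = decide (o (J k) ∈ z)) := by
      constructor
      · intro h
        have h' := forall_of_inter_eq h
        refine ⟨?_, fun k => ?_⟩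
        · rw [← hz]
          exact inter_eq_of_forall fun j hj => h' j (mem_union_left _ hj)
        · have := h' (o (J k)) (mem_union_right _ (mem_image_of_mem _ (mem_univ k)))
          simp only [this]
      · rintro ⟨h1, h2⟩
        rw [← hz] at h1
        have h1' := forall_of_inter_eq h1
        refine inter_eq_of_forall fun j hj => ?_
        rcases mem_union.1 hj with hj | hj
        · exact h1' j hj
        · obtain ⟨k, -, rfl⟩ := mem_image.1 hj
          have := h2 k
          simpa using this
    by_cases hA : z1 ∩ C = c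
    · by_cases hB : ∀ k, decide (o (J k) ∈ z1) = decide (o (J k) ∈ z)
      · rw [if_pos (hiff.2 ⟨hA, hB⟩), if_pos hA, if_pos hB, mul_one]
      · rw [if_neg (fun h => hB (hiff.1 h).2), if_pos hA, if_neg hB, mul_zero]
    · rw [if_neg (fun h => hA (hiff.1 h).1), if_neg hA]
  rw [e0, sum_fib_filter hF.le (fun z => z ∩ C = c)]
  · have e1 : ∀ x ∈ (range n).powerset.filter (fun x => x ∩ C = c),
        ∑ z1 ∈ (range n1).powerset with z1 ∩ range n = x, (law p N1 n1 t z1 *
          (if ∀ k, decide (o (J k) ∈ z1) = decide (o (J k) ∈ z) then (1 : ℝ) else 0)) =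
        law p N n t x * wt W X J t (fun k => decide (o (J k) ∈ z)) := by
      intro x hx
      obtain ⟨hx1, hx2⟩ := mem_filter.1 hx
      rw [hF.lw x (mem_powerset.1 hx1) hx2 t
        (fun Y => if ∀ k, Y (J k) = decide (o (J k) ∈ z) then (1 : ℝ) else 0)]
      congr 1
      unfold wt
      refine sum_congr rfl fun ω _ => ?_
      rw [mul_ite, mul_one, mul_zero]
    rw [sum_congr rfl e1, ← sum_mul]
    congr 1
    unfold mg
    rw [inter_eq_left.2 hc]
  · intro z1 _
    have : z1 ∩ range n ∩ C = z1 ∩ C := by
      rw [inter_assoc, inter_eq_right.2 hC]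
    simp only [this]

/-- the choice of the new agent -/
theorem act_eq (hp1 : p < 1) {A0 A1 w0 w1 s0 s1 : ℝ}
    (hA1 : 0 < A1) (hw0 : 0 < w0) (hs0 : 0 < s0)
    (hwin : (1 - p) * A0 < p * A1) (h : p * (w0 * s0) ≤ (1 - p) * (w1 * s1)) :
    A0 * w0 * s0 < A1 * w1 * s1 := by
  have h1 : (1 - p) * (A0 * w0 * s0) < (1 - p) * (A1 * w1 * s1) := by
    have e1 : (1 - p) * (A0 * w0 * s0) = ((1 - p) * A0) * (w0 * s0) := by ring
    have e2 : (1 - p) * (A1 * w1 * s1) = A1 * ((1 - p) * (w1 * s1)) := by ring
    rw [e1, e2]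
    calc ((1 - p) * A0) * (w0 * s0) < (p * A1) * (w0 * s0) := by
          apply mul_lt_mul_of_pos_right hwin (mul_pos hw0 hs0)
      _ = A1 * (p * (w0 * s0)) := by ring
      _ ≤ A1 * ((1 - p) * (w1 * s1)) := mul_le_mul_of_nonneg_left h hA1.le
  exact lt_of_mul_lt_mul_left h1 (by linarith)

theorem pact_new (hp : 1 / 2 < p) (hp1 : p < 1) (hv : Val N n) (hC : C ⊆ range n) (hc : c ⊆ C)
    (hwin : Win p N n C c) (hF : Fits p N n C c W X N1 n1 o S) (J : κ → ι)
    (φ : (κ → Bool) → Bool → Bool)
    (ht : ∀ y s, φ y s = true →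
      p * (wt W X J false y * sg p false s) ≤ (1 - p) * (wt W X J true y * sg p true s))
    (hf : ∀ y s, φ y s = false →
      p * (wt W X J true y * sg p true s) ≤ (1 - p) * (wt W X J false y * sg p false s))
    (z : Finset ℕ) (hz : z ∩ C = c) (θ b : Bool) :
    law p N1 n1 θ z *
      pact p (fun t => mg (law p N1 n1 t) n1 (C ∪ univ.image (fun k => o (J k))) z) θ b =
    law p N1 n1 θ z * ∑ s, if φ (fun k => decide (o (J k) ∈ z)) s = b then sg p θ s else 0 := by
  by_cases h0 : law p N1 n1 θ z = 0
  · rw [h0, zero_mul, zero_mul]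
  congr 1
  have hv1 := fits_val hv hC hF
  have hD : C ∪ univ.image (fun k => o (J k)) ⊆ range n1 := by
    refine union_subset (hC.trans (range_subset_range.2 hF.le)) ?_
    intro i hi
    obtain ⟨k, -, rfl⟩ := mem_image.1 hi
    exact mem_range.2 (hF.out (J k)).2
  have hpos : ∀ t, 0 < mg (law p N n t) n C c * wt W X J t (fun k => decide (o (J k) ∈ z)) := by
    intro t
    rw [← mg_out hC hc hF J t z hz]
    exact mg_pos hp hp1 hv1 hD h0 t
  obtain ⟨w1, w2⟩ := hwin
  have hA : ∀ t, 0 < mg (law p N n t) n C c := by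
    intro t
    refine lt_of_le_of_ne (mg_nonneg hp hp1) ?_
    intro h
    have := hpos t
    rw [← h, zero_mul] at this
    exact lt_irrefl _ this
  have hw : ∀ t, 0 < wt W X J t (fun k => decide (o (J k) ∈ z)) := fun t =>
    pos_of_mul_pos_right (hpos t) (hA t).le
  unfold pact
  refine sum_congr rfl fun s _ => ?_
  have hact : act p (fun t => mg (law p N1 n1 t) n1 (C ∪ univ.image (fun k => o (J k))) z) s =
      φ (fun k => decide (o (J k) ∈ z)) s := by
    unfold act
    simp only [mg_out hC hc hF J _ z hz]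
    cases h : φ (fun k => decide (o (J k) ∈ z)) s
    · rw [decide_eq_false_iff_not, not_le]
      exact act_eq hp1 (hA false) (hw true) (sg_pos hp hp1 _ _) w1 (hf _ _ h)
    · rw [decide_eq_true_eq]
      exact (act_eq hp1 (hA true) (hw false) (sg_pos hp hp1 _ _) w2 (ht _ _ h)).le
  rw [hact]

/-- AGE -/
theorem agent : S_agent := by
  intro p hp hp1 Ω ι κ _ _ W X J φ hRl hφ ht hf N n C c hv hC hc hwin
  obtain ⟨N1, n1, o, S, hF⟩ := hRl N n C c hv hC hc hwin
  have hv1 := fits_val hv hC hF
  have hD : C ∪ univ.image (fun k => o (J k)) ⊆ range n1 := by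
    refine union_subset (hC.trans (range_subset_range.2 hF.le)) ?_
    intro i hi
    obtain ⟨k, -, rfl⟩ := mem_image.1 hi
    exact mem_range.2 (hF.out (J k)).2
  set D := C ∪ univ.image (fun k => o (J k)) with hDdef
  set N2 : ℕ → Finset ℕ := Function.update N1 n1 D with hN2
  have hN2lt : ∀ j < n1, N2 j = N1 j := fun j hj => by
    rw [hN2, Function.update_of_ne (by omega)]
  have hN2n : N2 n1 = D := by rw [hN2, Function.update_self]
  have hlaw2 : law p N2 n1 = law p N1 n1 := law_congr hN2lt
  -- the new law
  have hlawz : ∀ (θ : Bool) (z : Finset ℕ), z ∩ C = c → law p N2 (n1 + 1) θ z =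
      law p N1 n1 θ z * ∑ s, if φ (fun k => decide (o (J k) ∈ z)) s = decide (n1 ∈ z)
        then sg p θ s else 0 := by
    intro θ z hz
    rw [law, hlaw2, hN2n]
    exact pact_new hp hp1 hv hC hc hwin hF J φ ht hf z hz θ _
  have hle := hF.le
  have hrestr : ∀ z : Finset ℕ, z ∩ C = c → z ∩ range n1 ∩ C = c := fun z hz => by
    rw [inter_assoc, inter_eq_right.2 (hC.trans (range_subset_range.2 hF.le)), hz]
  refine ⟨N2, n1 + 1, fun i => i.elim n1 o, S, ?_⟩
  refine
    { le := by omega
      ext := fun j hj => by rw [hN2lt j (by omega)]; exact hF.ext j hj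
      nb := ?_
      out := ?_
      sc := hF.sc.trans (Ico_subset_Ico le_rfl (by omega))
      scn := fun j hj => by
        rw [hN2lt j (mem_Ico.1 (hF.sc hj)).2]; exact hF.scn j hj
      lw := ?_
      one := ?_
      zero := ?_ }
  · intro j h1 h2
    by_cases h : j < n1
    · rw [hN2lt j h]; exact hF.nb j h1 h
    · have : j = n1 := by omega
      subst this
      rw [hN2n]
      refine ⟨subset_union_left, union_subset subset_union_left ?_⟩
      intro i hi
      obtain ⟨k, -, rfl⟩ := mem_image.1 hi
      exact mem_union_right _ (mem_Ico.2 (hF.out (J k)))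
  · intro i
    cases i with
    | none => exact ⟨hle, Nat.lt_succ_self n1⟩
    | some i => exact ⟨(hF.out i).1, (hF.out i).2.trans (Nat.lt_succ_self n1)⟩
  · intro x hx hxc θ F
    rw [sum_fib_trans hF.le (Nat.le_succ n1)]
    have hstep : ∀ y ∈ (range n1).powerset.filter (fun y => y ∩ range n = x),
        ∑ z ∈ (range (n1 + 1)).powerset with z ∩ range n1 = y,
          law p N2 (n1 + 1) θ z * F (fun i => decide ((i.elim n1 o : ℕ) ∈ z)) =
        law p N1 n1 θ y * (fun Y : ι → Bool => ∑ s, sg p θ s *
          F (fun i => i.elim (φ (fun k => Y (J k)) s) Y)) (fun i => decide (o i ∈ y)) := by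
      intro y hy
      obtain ⟨hy1, hy2⟩ := mem_filter.1 hy
      have hy1 := mem_powerset.1 hy1
      have hny : n1 ∉ y := fun h => by simpa using hy1 h
      have hyc : y ∩ C = c := by
        rw [← hxc, ← hy2, inter_assoc, inter_eq_right.2 hC]
      have hnC : ∀ j ∈ C, j ≠ n1 := fun j hj => by
        have := mem_range.1 (hC hj); omega
      have hyc' : insert n1 y ∩ C = c := by
        rw [← hyc]
        refine inter_eq_of_forall fun j hj => ?_
        simp [hnC j hj]
      have hoi : ∀ i, (o i ∈ insert n1 y) ↔ (o i ∈ y) := fun i => by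
        have := (hF.out i).2
        have hne : o i ≠ n1 := by omega
        simp [hne]
      have hl : law p N1 n1 θ (insert n1 y) = law p N1 n1 θ y :=
        law_eq hv1 fun j hj => by simp; intro; omega
      rw [sum_fib_succ hy1, hlawz θ y hyc, hlawz θ _ hyc', hl]
      have hp0 : (fun i : Option ι => decide ((i.elim n1 o : ℕ) ∈ y)) =
          fun i => i.elim false (fun i => decide (o i ∈ y)) := by
        funext i
        cases i with
        | none => simp [hny]
        | some i => rfl
      have hp1' : (fun i : Option ι => decide ((i.elim n1 o : ℕ) ∈ insert n1 y)) =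
          fun i => i.elim true (fun i => decide (o i ∈ y)) := by
        funext i
        cases i with
        | none => simp
        | some i => simp only [Option.elim_some, hoi]
      rw [hp0, hp1']
      simp only [hoi, mem_insert_self, hny, decide_true, decide_false]
      rw [mul_assoc, mul_assoc, ← mul_add]
      congr 1
      rw [sum_mul, sum_mul, ← sum_add_distrib]
      refine sum_congr rfl fun s _ => ?_
      cases h : φ (fun k => decide (o (J k) ∈ y)) s
      · simp
      · simp
    rw [sum_congr rfl hstep]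
    rw [hF.lw x hx hxc θ (fun Y : ι → Bool => ∑ s, sg p θ s *
          F (fun i => i.elim (φ (fun k => Y (J k)) s) Y))]
    congr 1
    rw [Fintype.sum_prod_type]
    refine sum_congr rfl fun ω _ => ?_
    rw [mul_sum]
    refine sum_congr rfl fun s _ => ?_
    rw [mul_assoc]
  · intro z hz hzc hne hSz
    have hl0 : law p N2 (n1 + 1) true z ≠ 0 := hne
    rw [hlawz true z hzc] at hl0
    have hl1 := left_ne_zero_of_mul hl0
    have hl2 := right_ne_zero_of_mul hl0
    have hall : ∀ i, o i ∈ z := by
      intro i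
      have := hF.one (z ∩ range n1) inter_subset_right (hrestr z hzc)
        (by rw [law_inter hv1]; exact hl1)
        (fun j hj => mem_inter.2 ⟨hSz hj, mem_range.2 (mem_Ico.1 (hF.sc hj)).2⟩) i
      exact (mem_inter.1 this).1
    intro i
    cases i with
    | some i => exact hall i
    | none =>
      obtain ⟨s, -, hs⟩ := exists_ne_zero_of_sum_ne_zero hl2
      have hs' : φ (fun k => decide (o (J k) ∈ z)) s = decide (n1 ∈ z) := by
        by_contra h
        rw [if_neg h] at hs
        exact hs rfl
      have hy : (fun k => decide (o (J k) ∈ z)) = fun _ => true := by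
        funext k; simp [hall]
      rw [hy, hφ] at hs'
      simpa using hs'.symm
  · intro z hz hzc hne hSz
    have hl0 : law p N2 (n1 + 1) true z ≠ 0 := hne
    rw [hlawz true z hzc] at hl0
    have hl1 := left_ne_zero_of_mul hl0
    have hl2 := right_ne_zero_of_mul hl0
    have hall : ∀ i, o i ∉ z := by
      intro i hi
      have := hF.zero (z ∩ range n1) inter_subset_right (hrestr z hzc)
        (by rw [law_inter hv1]; exact hl1)
        (hSz.mono_right inter_subset_left) i
      exact this (mem_inter.2 ⟨hi, mem_range.2 (hF.out i).2⟩)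
    intro i
    cases i with
    | some i => exact hall i
    | none =>
      obtain ⟨s, -, hs⟩ := exists_ne_zero_of_sum_ne_zero hl2
      have hs' : φ (fun k => decide (o (J k) ∈ z)) s = decide (n1 ∈ z) := by
        by_contra h
        rw [if_neg h] at hs
        exact hs rfl
      have hy : (fun k => decide (o (J k) ∈ z)) = fun _ => false := by
        funext k; simp [hall]
      rw [hy, hφ] at hs'
      simpa using hs'.symm

end Q26.SL
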