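import Mathlib
import Pool.Agent.Q100.SL.Bas

set_option autoImplicit false

open Finset

namespace Q26.SL

open Q100.SL

theorem winb {p : ℝ} {N : ℕ → Finset ℕ} {n : ℕ} {D z : Finset ℕ} (b : Bool)
    (h1 : (1 - p) * mg (law p N n b) n D z < p * mg (law p N n (!b)) n D z)
    (h2 : (1 - p) * mg (law p N n (!b)) n D z < p * mg (law p N n b) n D z) :
    Win p N n D z := by
  cases b
  · exact ⟨h2, h1⟩
  · exact ⟨h1, h2⟩

/-- ATO -/
theorem atom (h1 : S_off1) (h2 : S_off2) (h3 : S_scoutmg) : S_atom := by
  intro p hp hp1 α₁ α₀ κ₁ κ₀ a1 a2 a3 a4 a5 m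
  obtain ⟨T, hT⟩ := h2 p hp hp1 α₁ α₀ κ₁ κ₀ a1 a2 a3 a4 a5 m
  refine ⟨T, ?_⟩
  intro Ω _ W X hX N n hmn hv C z hC hz hne hwin o S hB hS
  have hR : ∀ t, mg (law p N n t) n (range m) z = law p N m t z := fun t => mg_range hmn hv
  have hRpos : ∀ t, 0 < law p N m t z := fun t =>
    law_pos_of_ne hp hp1 (law_ne_of_le hmn hne) t
  by_cases hw : Win p N n (range m) z
  · exact ⟨range m, range_subset_range.2 hmn, subset_rfl, hw⟩
  obtain ⟨b, hb⟩ : ∃ b, p * law p N m (!b) z ≤ (1 - p) * law p N m b z := by
    unfold Win at hw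
    rw [hR, hR, not_and_or, not_lt, not_lt] at hw
    rcases hw with h | h
    · exact ⟨true, h⟩
    · exact ⟨false, h⟩
  have hrat := law_ratio hp hp1 N m b (!b) z
  have hfin : ∀ D : Finset ℕ, ∀ x y : ℝ,
      (mg (law p N n b) n D z = law p N m b z * x) →
      (mg (law p N n (!b)) n D z = law p N m (!b) z * y) →
      (1 - p) * (law p N m b z * x) < p * (law p N m (!b) z * y) →
      (1 - p) * (law p N m (!b) z * y) < p * (law p N m b z * x) → Win p N n D z := by
    intro D x y e1 e2 w1 w2
    refine winb b ?_ ?_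
    · rw [e1, e2]; exact w1
    · rw [e1, e2]; exact w2
  by_cases hcase : ∀ k : Fin m, ∃ j ∈ S k, decide (j ∈ z) = !b
  · choose j hj hjz using hcase
    have hinj : Function.Injective j := by
      intro k l hkl
      by_contra hne'
      exact (disjoint_left.1 (hS k l hne')) (hj k) (hkl ▸ hj l)
    obtain ⟨k0, hk0, w1, w2⟩ := h1 p hp hp1 (law p N m b z) (law p N m (!b) z) m (hRpos _) hb hrat
    obtain ⟨Z, hZ1, hZ2⟩ := exists_subset_card_eq (s := univ.image j) (n := k0)
      (by rw [card_image_of_injective _ hinj, card_univ, Fintype.card_fin]; exact hk0)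
    have hZ3 : ∀ i ∈ Z, ∃ k, j k = i := fun i hi => by
      obtain ⟨k, -, hk⟩ := mem_image.1 (hZ1 hi)
      exact ⟨k, hk⟩
    have hZ4 : Z ⊆ Ico m n := by
      intro i hi
      obtain ⟨k, rfl⟩ := hZ3 i hi
      exact (hB k).sc (hj k)
    have hZ5 : ∀ i ∈ Z, N i = C := by
      intro i hi
      obtain ⟨k, rfl⟩ := hZ3 i hi
      exact (hB k).scn _ (hj k)
    have hprod : ∀ t, ∏ i ∈ Z, sg p t (decide (i ∈ z)) = (sg p t (!b)) ^ k0 := by
      intro t
      rw [← hZ2, ← prod_const]
      refine prod_congr rfl fun i hi => ?_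
      obtain ⟨k, rfl⟩ := hZ3 i hi
      rw [hjz]
    have hmg : ∀ t, mg (law p N n t) n (range m ∪ Z) z = law p N m t z * (sg p t (!b)) ^ k0 := by
      intro t
      rw [h3 p hp hp1 N n m hv C Z z hmn hC hZ4 hZ5 hz hwin t, hprod, hR]
    refine ⟨range m ∪ Z, union_subset (range_subset_range.2 hmn) ?_, subset_union_left, ?_⟩
    · intro i hi
      exact mem_range.2 (mem_Ico.1 (hZ4 hi)).2
    · refine hfin _ _ _ (hmg _) (hmg _) ?_ ?_
      · have e1 : sg p b (!b) = 1 - p := by cases b <;> simp [sg]
        have e2 : sg p (!b) (!b) = p := by simp [sg]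
        rw [e1, e2]
        exact w1
      · have e1 : sg p b (!b) = 1 - p := by cases b <;> simp [sg]
        have e2 : sg p (!b) (!b) = p := by simp [sg]
        rw [e1, e2]
        exact w2
  · push Not at hcase
    obtain ⟨k, hk⟩ := hcase
    have hk' : ∀ j ∈ S k, decide (j ∈ z) = b := by
      intro j hj
      have := hk j hj
      revert this
      cases decide (j ∈ z) <;> cases b <;> simp
    have hout : ∀ i, decide (o k i ∈ z) = b := by
      cases b
      · intro i
        have hdis : Disjoint (S k) z := by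
          rw [disjoint_left]
          intro j hj
          have := hk' j hj
          simpa using this
        have := (hB k).zero z hz rfl hne hdis i
        simpa using this
      · intro i
        have hsub : S k ⊆ z := by
          intro j hj
          have := hk' j hj
          simpa using this
        have := (hB k).one z hz rfl hne hsub i
        simpa using this
    obtain ⟨t, ht, w1, w2⟩ := hT (law p N m b z) (law p N m (!b) z) (hRpos _) hb hrat
    have hmg : ∀ θ, mg (law p N n θ) n (range m ∪ (range (t + 2)).image (o k)) z =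
        law p N m θ z * (if θ = b then α₁ * κ₁ ^ t else α₀ * κ₀ ^ t) := by
      intro θ
      rw [(hB k).mgl z hz rfl θ (range (t + 2)), hR, ← hX t ht b θ]
      congr 1
      refine sum_congr rfl fun ω _ => ?_
      have : (∀ i ∈ range (t + 2), X i ω = decide (o k i ∈ z)) ↔ (∀ i < t + 2, X i ω = b) := by
        simp only [hout, mem_range]
      simp only [this]
    refine ⟨range m ∪ (range (t + 2)).image (o k), union_subset (range_subset_range.2 hmn) ?_,
      subset_union_left, ?_⟩
    · intro i hi
      obtain ⟨l, -, rfl⟩ := mem_image.1 hi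
      exact mem_range.2 ((hB k).out l).2
    · refine hfin _ _ _ (hmg _) (hmg _) ?_ ?_
      · have hbb : ((!b) = b) = False := by cases b <;> simp
        simp only [if_true, hbb, if_false]
        exact w1
      · have hbb : ((!b) = b) = False := by cases b <;> simp
        simp only [if_true, hbb, if_false]
        exact w2

end Q26.SL
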