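import Mathlib
import Pool.Agent.Q100.SL.Stm

set_option autoImplicit false

open Finset

namespace Q26.SL

open Q100.SL

/-- BIT -/
theorem bits (h0 : S_empty) (h1 : S_prod) (h2 : S_law) : S_bits := by
  intro p hp hp1 a ha m
  induction m with
  | zero =>
    refine h2 p Unit (Fin 0 → Bool) Empty (Fin 0) _ _ _ _ (fun i => i.elim0) (h0 p) ?_
    intro θ F
    have hF : ∀ f g : Fin 0 → Bool, F f = F g := fun f g => by
      congr 1
      exact Subsingleton.elim _ _
    simp only [univ_unique, sum_singleton, one_mul, Finset.univ_eq_empty, prod_empty]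
    exact hF _ _
  | succ m ih =>
    refine h2 p (Bool × (Fin m → Bool)) (Fin (m + 1) → Bool) (Unit ⊕ Fin m) (Fin (m + 1)) _ _ _ _
      (fun i => Fin.cases (Sum.inl ()) (fun k => Sum.inr k) i)
      (h1 p hp hp1 Bool (Fin m → Bool) Unit (Fin m) _ _ _ _ ha ih) ?_
    intro θ F
    refine Fintype.sum_equiv (Fin.consEquiv fun _ => Bool) _ _ ?_
    rintro ⟨s, u⟩
    have e1 : (∏ i : Fin (m + 1), sg a θ ((Fin.consEquiv fun _ => Bool) (s, u) i)) =
        sg a θ s * ∏ i, sg a θ (u i) := by
      rw [Fin.prod_univ_succ]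
      rfl
    rw [e1]
    congr 2
    funext i
    refine Fin.cases ?_ (fun k => ?_) i
    · rfl
    · rfl

end Q26.SL
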