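import Mathlib
import Pool.Agent.Q100.SL.Stm

set_option autoImplicit false

open Finset MeasureTheory

namespace Q26.SL

open Q100.SL

/-- the law of a bit with probability `q` of `true` -/
noncomputable def nu (q : ℝ) : Measure Bool :=
  ENNReal.ofReal q • Measure.dirac true + ENNReal.ofReal (1 - q) • Measure.dirac false

theorem nu_singleton (q : ℝ) (b : Bool) :
    nu q {b} = ENNReal.ofReal (if b = true then q else 1 - q) := by
  unfold nu
  cases b <;> simp

theorem nu_prob {q : ℝ} (h0 : 0 ≤ q) (h1 : q ≤ 1) : IsProbabilityMeasure (nu q) := by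
  constructor
  unfold nu
  simp only [Measure.coe_add, Measure.coe_smul, Pi.add_apply, Pi.smul_apply, measure_univ,
    smul_eq_mul, mul_one]
  rw [← ENNReal.ofReal_add h0 (by linarith)]
  simp

/-- the recursion for the histories -/
noncomputable def hst {Ω : Type} [MeasurableSpace Ω] (P : Measure Ω) (θ : Ω → Bool)
    (s : ℕ → Ω → Bool) (N : ℕ → Finset ℕ) : ℕ → Ω → Finset ℕ
  | 0, _ => ∅
  | n + 1, ω => open Classical in
    if P.real {ω' | θ ω' = false ∧ s n ω' = s n ω ∧ hst P θ s N n ω' ∩ N n = hst P θ s N n ω ∩ N n} ≤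
      P.real {ω' | θ ω' = true ∧ s n ω' = s n ω ∧ hst P θ s N n ω' ∩ N n = hst P θ s N n ω ∩ N n}
    then insert n (hst P θ s N n ω) else hst P θ s N n ω

section
variable {Ω : Type} [MeasurableSpace Ω] (P : Measure Ω) (θ : Ω → Bool) (s : ℕ → Ω → Bool)
  (N : ℕ → Finset ℕ)

theorem hst_sub (n : ℕ) (ω : Ω) : hst P θ s N n ω ⊆ range n := by
  induction n with
  | zero => simp [hst]
  | succ n ih =>
    rw [hst]
    have hr : range n ⊆ range (n + 1) := range_subset_range.2 (Nat.le_succ n)
    split_ifs
    · exact insert_subset (by simp) (ih.trans hr)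
    · exact ih.trans hr

theorem hst_mem {m n : ℕ} (h : m < n) (ω : Ω) :
    m ∈ hst P θ s N n ω ↔ m ∈ hst P θ s N (m + 1) ω := by
  induction n, h using Nat.le_induction with
  | base => exact Iff.rfl
  | succ n hn ih =>
    rw [← ih, hst]
    have hmn : m ≠ n := by have : m < n := hn; omega
    split_ifs
    · simp [hmn]
    · exact Iff.rfl

end

/-- EXI -/
theorem exists_model : S_exists := by
  intro p hp hp1 N hN
  classical
  have hp0 : 0 ≤ p := by linarith
  have := nu_prob hp0 hp1.le
  have := nu_prob (q := 1 / 2) (by norm_num) (by norm_num)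
  let P : Measure (Bool × (ℕ → Bool)) := (nu (1 / 2)).prod (Measure.infinitePi fun _ => nu p)
  let θ : Bool × (ℕ → Bool) → Bool := Prod.fst
  let s : ℕ → Bool × (ℕ → Bool) → Bool := fun n ω => (ω.2 n == ω.1)
  refine ⟨Bool × (ℕ → Bool), inferInstance, P, θ, s,
    fun n ω => decide (n ∈ hst P θ s N (n + 1) ω), ?_⟩
  refine { prob := inferInstanceAs (IsProbabilityMeasure ((nu (1 / 2)).prod _)),
           mθ := measurable_fst, ms := ?_, signals := ?_, bayes := ?_ }
  · intro n
    have h1 : Measurable fun ω : Bool × (ℕ → Bool) => (ω.2 n, ω.1) :=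
      ((measurable_pi_apply n).comp measurable_snd).prodMk measurable_fst
    exact (measurable_of_countable (fun x : Bool × Bool => (x.1 == x.2))).comp h1
  · intro b n σ
    have hset : {ω : Bool × (ℕ → Bool) | θ ω = b ∧ ∀ i < n, s i ω = σ i} =
        ({b} : Set Bool) ×ˢ (Set.pi (range n : Finset ℕ) fun i => {(σ i == b)}) := by
      ext ω
      simp only [Set.mem_ofPred_eq, Set.mem_prod, Set.mem_singleton_iff, Set.mem_pi, mem_coe,
        mem_range, θ, s]
      constructor
      · rintro ⟨h1, h2⟩
        refine ⟨h1, fun i hi => ?_⟩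
        have := h2 i hi
        rw [h1] at this
        revert this
        cases ω.2 i <;> cases b <;> cases σ i <;> simp
      · rintro ⟨h1, h2⟩
        refine ⟨h1, fun i hi => ?_⟩
        have := h2 i hi
        rw [h1]
        revert this
        cases ω.2 i <;> cases b <;> cases σ i <;> simp
    rw [hset, measureReal_def]
    have hP : P = (nu (1 / 2)).prod (Measure.infinitePi fun _ => nu p) := rfl
    rw [hP, Measure.prod_prod, Measure.infinitePi_pi _ (fun i _ => measurableSet_singleton _),
      nu_singleton, ENNReal.toReal_mul, ENNReal.toReal_prod]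
    congr 1
    · rw [ENNReal.toReal_ofReal]
      · split_ifs <;> norm_num
      · split_ifs <;> norm_num
    · refine prod_congr rfl fun i _ => ?_
      rw [nu_singleton, ENNReal.toReal_ofReal]
      · cases σ i <;> cases b <;> simp
      · split_ifs <;> linarith
  · intro n ω
    have hset : ∀ b : Bool, {ω' | θ ω' = b ∧ s n ω' = s n ω ∧ ∀ m ∈ N n,
        decide (m ∈ hst P θ s N (m + 1) ω') = decide (m ∈ hst P θ s N (m + 1) ω)} =
        {ω' | θ ω' = b ∧ s n ω' = s n ω ∧ hst P θ s N n ω' ∩ N n = hst P θ s N n ω ∩ N n} := by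
      intro b
      ext ω'
      simp only [Set.mem_ofPred_eq]
      refine and_congr_right fun _ => and_congr_right fun _ => ?_
      constructor
      · intro h
        ext m
        rw [mem_inter, mem_inter]
        refine and_congr_left fun hm => ?_
        have hmn := mem_range.1 (hN n hm)
        rw [hst_mem P θ s N hmn, hst_mem P θ s N hmn]
        exact decide_eq_decide.1 (h m hm)
      · intro h m hm
        have hmn := mem_range.1 (hN n hm)
        rw [decide_eq_decide, ← hst_mem P θ s N hmn, ← hst_mem P θ s N hmn]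
        have := Finset.ext_iff.1 h m
        simpa [hm] using this
    rw [hset, hset, decide_eq_true_eq, hst]
    have hn : n ∉ hst P θ s N n ω := fun h => by simpa using hst_sub P θ s N n ω h
    split_ifs with h
    · simp [h]
    · simp [h, hn]

end Q26.SL
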