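import Mathlib
import Pool.Agent.Q100.SL.Stm

set_option autoImplicit false

open Finset

namespace Q26.SL

open Q100.SL

theorem sg_nonneg {p : ℝ} (hp : 1 / 2 < p) (hp1 : p < 1) (θ s : Bool) : 0 ≤ sg p θ s := by
  unfold sg; split_ifs <;> linarith

theorem pact_nonneg {p : ℝ} (hp : 1 / 2 < p) (hp1 : p < 1) (a : Bool → ℝ) (θ b : Bool) :
    0 ≤ pact p a θ b := by
  unfold pact
  refine sum_nonneg fun s _ => ?_
  split_ifs
  · exact sg_nonneg hp hp1 θ s
  · exact le_rfl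

theorem law_nonneg {p : ℝ} (hp : 1 / 2 < p) (hp1 : p < 1) (N : ℕ → Finset ℕ) (n : ℕ) (θ : Bool)
    (z : Finset ℕ) : 0 ≤ law p N n θ z := by
  induction n with
  | zero => simp [law]
  | succ n ih =>
    rw [law]
    exact mul_nonneg ih (pact_nonneg hp hp1 _ _ _)

theorem law_congr (p : ℝ) {N N' : ℕ → Finset ℕ} (n : ℕ) (h : ∀ j < n, N j = N' j) :
    law p N n = law p N' n := by
  induction n with
  | zero => funext θ z; simp [law]
  | succ n ih =>
    have ih' := ih fun j hj => h j (by omega)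
    funext θ z
    rw [law, law, ih', h n (by omega)]

theorem err_congr (p : ℝ) {N N' : ℕ → Finset ℕ} (j : ℕ) (h : ∀ i < j + 1, N i = N' i) :
    err p N j = err p N' j := by
  unfold err
  rw [law_congr p (j + 1) h]

theorem err_nonneg {p : ℝ} (hp : 1 / 2 < p) (hp1 : p < 1) (N : ℕ → Finset ℕ) (j : ℕ) :
    0 ≤ err p N j := sum_nonneg fun _ _ => law_nonneg hp hp1 _ _ _ _

theorem stage0 {p : ℝ} (hp : 1 / 2 < p) : Stage p (fun _ => ∅) 0 1 := by
  have hm : ∀ (t : Bool) (C x : Finset ℕ), C = ∅ → mg (law p (fun _ => ∅) 0 t) 0 C x = 1 := by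
    intro t C x hC
    unfold mg
    subst hC
    simp [law]
  refine ⟨fun j hj => absurd hj (Nat.not_lt_zero j), fun x hx _ => ⟨∅, by simp, ?_, ?_⟩⟩
  · unfold Win
    rw [hm true ∅ x rfl, hm false ∅ x rfl]
    constructor <;> linarith
  · unfold BC
    rw [powerset_empty, sum_singleton, hm true ∅ _ rfl, hm false ∅ _ rfl]
    simp

/-- INF -/
theorem inf (h : S_step) : S_inf := by
  intro p hp hp1 hG
  have step : ∀ (k : ℕ) (t : {t : (ℕ → Finset ℕ) × ℕ // Stage p t.1 t.2 (1 / ((k : ℝ) + 1))}),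
      ∃ t' : {t : (ℕ → Finset ℕ) × ℕ // Stage p t.1 t.2 (1 / (((k + 1 : ℕ) : ℝ) + 1))},
        t.1.2 < t'.1.2 ∧ (∀ j < t.1.2, t'.1.1 j = t.1.1 j) ∧
        ∀ j, t.1.2 ≤ j → j < t'.1.2 → err p t'.1.1 j ≤ 1 / ((k : ℝ) + 1) := by
    rintro k ⟨⟨N, n⟩, ht⟩
    obtain ⟨N', n', h1, h2, h3, h4⟩ := h p hp hp1 hG N n _ ht (1 / (((k + 1 : ℕ) : ℝ) + 1))
      (by positivity)
    exact ⟨⟨⟨N', n'⟩, h3⟩, h1, h2, h4⟩
  choose F hF1 hF2 hF3 using step
  let sq : (k : ℕ) → {t : (ℕ → Finset ℕ) × ℕ // Stage p t.1 t.2 (1 / ((k : ℝ) + 1))} :=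
    fun k => Nat.rec ⟨⟨fun _ => ∅, 0⟩, by
      have := stage0 hp
      simpa using this⟩ (fun k t => F k t) k
  have hsq : ∀ k, sq (k + 1) = F k (sq k) := fun k => rfl
  have hlt : ∀ k, (sq k).1.2 < (sq (k + 1)).1.2 := fun k => by rw [hsq]; exact hF1 k _
  have hmono : StrictMono fun k => (sq k).1.2 := strictMono_nat_of_lt_succ hlt
  have hge : ∀ k, k ≤ (sq k).1.2 := fun k => hmono.id_le k
  have hext : ∀ k d j, j < (sq k).1.2 → (sq (k + d)).1.1 j = (sq k).1.1 j := by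
    intro k d
    induction d with
    | zero => intro j _; rfl
    | succ d ih =>
      intro j hj
      have e1 : (sq (k + d + 1)).1.1 j = (sq (k + d)).1.1 j := by
        rw [hsq]
        exact hF2 _ _ j (lt_of_lt_of_le hj (hmono.monotone (by omega)))
      exact e1.trans (ih j hj)
  have hext2 : ∀ k l j, j < (sq k).1.2 → j < (sq l).1.2 → (sq k).1.1 j = (sq l).1.1 j := by
    intro k l j hk hl
    rcases le_total k l with hkl | hkl
    · obtain ⟨d, rfl⟩ := Nat.exists_eq_add_of_le hkl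
      exact (hext k d j hk).symm
    · obtain ⟨d, rfl⟩ := Nat.exists_eq_add_of_le hkl
      exact hext l d j hl
  let N : ℕ → Finset ℕ := fun j => (sq (j + 1)).1.1 j
  have hN : ∀ k j, j < (sq k).1.2 → N j = (sq k).1.1 j := fun k j hj =>
    hext2 (j + 1) k j (hge (j + 1)) hj
  refine ⟨N, ?_, ?_⟩
  · intro n
    exact (sq (n + 1)).2.1 n (hge (n + 1))
  · have key : ∀ K j, (sq K).1.2 ≤ j → err p N j ≤ 1 / ((K : ℝ) + 1) := by
      intro K j hj
      have hex : ∃ k, j < (sq (k + 1)).1.2 := ⟨j, hge (j + 1)⟩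
      classical
      obtain ⟨k, hk, hkmin⟩ : ∃ k, j < (sq (k + 1)).1.2 ∧ ∀ l < k, ¬ j < (sq (l + 1)).1.2 :=
        ⟨Nat.find hex, Nat.find_spec hex, fun l hl => Nat.find_min hex hl⟩
      have hKk : K ≤ k := by
        by_contra hcon
        push Not at hcon
        have : (sq (k + 1)).1.2 ≤ (sq K).1.2 := hmono.monotone hcon
        omega
      have hkj : (sq k).1.2 ≤ j := by
        rcases Nat.eq_or_lt_of_le hKk with rfl | hlt'
        · exact hj
        · obtain ⟨l, rfl⟩ : ∃ l, k = l + 1 := ⟨k - 1, by omega⟩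
          exact not_lt.1 (hkmin l (by omega))
      have e1 : err p N j = err p (sq (k + 1)).1.1 j :=
        err_congr p j fun i hi => hN (k + 1) i (by omega)
      have e2 : err p (sq (k + 1)).1.1 j ≤ 1 / ((k : ℝ) + 1) := by
        have := hF3 k (sq k) j hkj (by rw [← hsq]; exact hk)
        rwa [← hsq] at this
      rw [e1]
      refine e2.trans ?_
      have : (K : ℝ) ≤ k := by exact_mod_cast hKk
      apply one_div_le_one_div_of_le
      · positivity
      · linarith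
    rw [Metric.tendsto_atTop]
    intro ε hε
    obtain ⟨K, hK⟩ := exists_nat_one_div_lt hε
    refine ⟨(sq K).1.2, fun j hj => ?_⟩
    rw [Real.dist_eq, sub_zero, abs_of_nonneg (err_nonneg hp hp1 N j)]
    exact (key K j hj).trans_lt hK

end Q26.SL
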