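import Mathlib
import Pool.Agent.Q100.SL.Stm

set_option autoImplicit false

open Finset

namespace Q26.SL

open Q100.SL

/-- SCS -/
theorem scouts : S_scouts := by
  intro N n hN A
  induction A using Finset.induction_on with
  | empty =>
    intro f _ M
    exact ⟨N, n, le_rfl, fun _ _ => rfl, hN, fun j h1 h2 => absurd h2 (not_lt.2 h1),
      fun x hx => absurd hx (notMem_empty x)⟩
  | insert a A ha ih =>
    intro f hf M
    obtain ⟨N', n', hn, hag, hval, hnb, hS⟩ := ih f (fun x hx => hf x (mem_insert_of_mem hx)) M
    refine ⟨fun j => if j < n' then N' j else f a, n' + M, by omega, ?_, ?_, ?_, ?_⟩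
    · intro j hj
      have : j < n' := lt_of_lt_of_le hj hn
      simp only [this, if_true]
      exact hag j hj
    · intro j hj
      by_cases h : j < n'
      · simp only [h, if_true]
        exact hval j h
      · simp only [h, if_false]
        refine (hf a (mem_insert_self a A)).trans ?_
        intro x hx
        rw [mem_range] at hx ⊢
        omega
    · intro j h1 h2
      by_cases h : j < n'
      · obtain ⟨x, hx, e⟩ := hnb j h1 h
        exact ⟨x, mem_insert_of_mem hx, by simp only [h, if_true]; exact e⟩
      · exact ⟨a, mem_insert_self a A, by simp only [h, if_false]⟩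
    · intro x hx
      rcases mem_insert.1 hx with rfl | hx
      · refine ⟨Ico n' (n' + M), ?_, by simp, ?_⟩
        · exact Ico_subset_Ico hn le_rfl
        · intro j hj
          rw [mem_Ico] at hj
          have : ¬ j < n' := by omega
          simp only [this, if_false]
      · obtain ⟨S, hS1, hS2, hS3⟩ := hS x hx
        refine ⟨S, hS1.trans (Ico_subset_Ico le_rfl (by omega)), hS2, ?_⟩
        intro j hj
        have : j < n' := (mem_Ico.1 (hS1 hj)).2
        simp only [this, if_true]
        exact hS3 j hj

end Q26.SL
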