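import Mathlib
import Pool.Agent.Q100.SL.Bas

set_option autoImplicit false

open Finset

namespace Q26.SL

open Q100.SL

theorem BC_ext {p : ℝ} {N N' : ℕ → Finset ℕ} {n n' : ℕ} {C : Finset ℕ} (hn : n ≤ n')
    (hv : Val N' n') (he : ∀ j < n, N' j = N j) (hC : C ⊆ range n) :
    BC p N' n' C = BC p N n C := by
  unfold BC
  refine sum_congr rfl fun c _ => ?_
  rw [mg_ext hn hv hC, mg_ext hn hv hC, law_congr he]

theorem sqrt_lt {p : ℝ} (hp : 1 / 2 < p) : 2 * √(p * (1 - p)) < 1 := by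
  have h : √(p * (1 - p)) < 1 / 2 := by
    rw [Real.sqrt_lt' (by norm_num)]
    nlinarith
  linarith

/-- STP -/
theorem step (h1 : S_scouts) (h2 : S_blocks) (h3 : S_bcscouts) (h4 : S_bcmono) (h5 : S_atom)
    (h6 : S_err) : S_step := by
  intro p hp hp1 hG N n ε hst ε' hε'
  obtain ⟨hv, hstage⟩ := hst
  classical
  choose! C hCsub hCwin hCbc using hstage
  set A : Finset (Finset ℕ) := (range n).powerset.filter (fun x => law p N n true x ≠ 0) with hA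
  have memA : ∀ x, x ∈ A ↔ x ⊆ range n ∧ law p N n true x ≠ 0 := fun x => by
    rw [hA, mem_filter, mem_powerset]
  have hne : ∃ x, x ∈ A := by
    by_contra hcon
    push Not at hcon
    have htot := law_total (p := p) (θ := true) hv
    rw [sum_eq_zero] at htot
    · exact zero_ne_one htot
    · intro x hx
      by_contra h
      exact hcon x ((memA x).2 ⟨mem_powerset.1 hx, h⟩)
  obtain ⟨x₀, hx₀⟩ := hne
  have hq0 : 0 ≤ 2 * √(p * (1 - p)) := by positivity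
  have hq1 := sqrt_lt hp
  obtain ⟨M, hM⟩ := exists_pow_lt_of_lt_one hε' hq1
  have hM1 : (2 * √(p * (1 - p))) ^ (M + 1) ≤ ε' :=
    (pow_le_pow_of_le_one hq0 hq1.le (Nat.le_succ M)).trans hM.le
  obtain ⟨N1, n1, hn1, hag1, hval1, hnb1, hS1⟩ := h1 N n hv A C
    (fun x hx => hCsub x ((memA x).1 hx).1 ((memA x).1 hx).2) (M + 1)
  have hlt : n < n1 := by
    obtain ⟨S, hS, hcard, -⟩ := hS1 x₀ hx₀
    have := card_le_card hS
    rw [hcard, Nat.card_Ico] at this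
    omega
  have hBC1 : BC p N1 n1 (range n1) ≤ ε' := by
    refine (h3 p hp hp1 N N1 n n1 hn1 hag1 hval1 C (M + 1) ?_).trans hM1
    intro x hx hx'
    exact ⟨hCsub x hx hx', hCwin x hx hx', hS1 x ((memA x).2 ⟨hx, hx'⟩)⟩
  obtain ⟨α₁, α₀, κ₁, κ₀, g1, g2, g3, g4, g5, g6⟩ := hG
  obtain ⟨T, hT⟩ := h5 p hp hp1 α₁ α₀ κ₁ κ₀ g1 g2 g3 g4 g5 n1
  obtain ⟨Ω, inst, W, X, hRl, hlaw⟩ := g6 T
  have hT' := hT Ω W X hlaw
  have hr1 : range n ⊆ range n1 := range_subset_range.2 hn1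
  obtain ⟨N2, n2, hn2, hag2, hval2, hnb2, hblk⟩ := h2 p hp hp1 Ω ℕ W X hRl N1 n1 hval1 A C
    (fun x hx => by
      obtain ⟨hx1, hx2⟩ := (memA x).1 hx
      refine ⟨hx1.trans hr1, (hCsub x hx1 hx2).trans hr1, ?_⟩
      exact (win_ext hn1 hval1 hag1 (hCsub x hx1 hx2) rfl).2 (hCwin x hx1 hx2)) n1
  have hag : ∀ j < n, N2 j = N j := fun j hj => (hag2 j (hj.trans hlt)).trans (hag1 j hj)
  refine ⟨N2, n2, lt_of_lt_of_le hlt hn2, hag, ⟨hval2, ?_⟩, ?_⟩
  · intro z hz hzl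
    have hx2 : law p N n true (z ∩ range n) ≠ 0 := by
      rw [law_inter hv, ← law_congr hag]
      exact law_ne_of_le (hn1.trans hn2) hzl
    have hx1 : z ∩ range n ⊆ range n := inter_subset_right
    have hxA := (memA _).2 ⟨hx1, hx2⟩
    have hCs := hCsub _ hx1 hx2
    have hzx : z ∩ range n ∩ C (z ∩ range n) = z ∩ C (z ∩ range n) := by
      rw [inter_assoc, inter_eq_right.2 hCs]
    obtain ⟨o, S, hB, hd⟩ := hblk _ hxA
    rw [hzx] at hB
    have hwin : Win p N2 n2 (C (z ∩ range n)) z :=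
      (win_ext (hn1.trans hn2) hval2 hag hCs hzx.symm).2 (hCwin _ hx1 hx2)
    obtain ⟨D, hD1, hD2, hD3⟩ := hT' N2 n2 hn2 hval2 (C (z ∩ range n)) z (hCs.trans hr1) hz hzl
      hwin o S hB hd
    refine ⟨D, hD1, hD3, ?_⟩
    calc BC p N2 n2 D ≤ BC p N2 n2 (range n1) := h4 p hp hp1 N2 n2 hval2 _ _ hD2 hD1
      _ = BC p N1 n1 (range n1) := BC_ext hn2 hval2 hag2 subset_rfl
      _ ≤ ε' := hBC1
  · intro j hj1 hj2
    have hx : ∃ x ∈ A, C x ⊆ N2 j := by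
      by_cases h : j < n1
      · obtain ⟨x, hx, e⟩ := hnb1 j hj1 h
        exact ⟨x, hx, by rw [hag2 j h, e]⟩
      · exact hnb2 j (not_lt.1 h) hj2
    obtain ⟨x, hxA, hCx⟩ := hx
    obtain ⟨hx1, hx2⟩ := (memA x).1 hxA
    have hvj : Val N2 (j + 1) := hval2.mono hj2
    calc err p N2 j ≤ BC p N2 j (N2 j) := h6 p hp hp1 N2 j hvj
      _ ≤ BC p N2 j (C x) := h4 p hp hp1 N2 j (hvj.mono (by omega)) _ _ hCx (hvj j (by omega))
      _ = BC p N n (C x) := BC_ext hj1 (hvj.mono (by omega)) hag (hCsub x hx1 hx2)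
      _ ≤ ε := hCbc x hx1 hx2

end Q26.SL
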